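import Pool.Agent.Q72.AL.Stm

/-! Project AL (helper72), jobs DDB and LIM. -/

set_option autoImplicit false
set_option linter.unusedSectionVars false
set_option linter.unusedVariables false

open Complex MeasureTheory Filter Topology Set
open Pool.Agent.Q72.AL

namespace Pool.Agent.Q190.AL

theorem gg_le {κ : ℝ} (h1 : 1 ≤ κ) (h2 : κ ≤ 2) (x : ℝ) :
    0 ≤ gg κ x ∧ gg κ x ≤ Real.exp (-(x ^ 2 / 8)) := by
  unfold gg
  have hpi := Real.pi_gt_three
  have hs : 1 ≤ Real.sqrt (Real.pi * κ) := by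
    rw [Real.one_le_sqrt]
    nlinarith
  have h3 : (2 * Real.sqrt (Real.pi * κ))⁻¹ ≤ 1 := inv_le_one_of_one_le₀ (by linarith)
  have h4 : Real.exp (-(x ^ 2 / (4 * κ))) ≤ Real.exp (-(x ^ 2 / 8)) :=
    Real.exp_le_exp.2 (neg_le_neg (div_le_div_of_nonneg_left (sq_nonneg x) (by linarith)
      (by linarith)))
  constructor
  · positivity
  · calc (2 * Real.sqrt (Real.pi * κ))⁻¹ * Real.exp (-(x ^ 2 / (4 * κ)))
        ≤ 1 * Real.exp (-(x ^ 2 / 8)) := mul_le_mul h3 h4 (Real.exp_pos _).le zero_le_one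
      _ = Real.exp (-(x ^ 2 / 8)) := one_mul _

/-- the comparison sequence -/
noncomputable def g (A : ℝ) (n : ℕ) : ℝ := if n = 0 then 0 else min (1 / A) (A / (n : ℝ) ^ 2)

theorem g_step {A : ℝ} (hA : 0 < A) (N : ℕ) :
    g A (N + 1) ≤ 4 * (A / (A + N) - A / (A + (N + 1))) := by
  have hN : (0 : ℝ) ≤ N := Nat.cast_nonneg N
  have e1 : A / (A + N) - A / (A + (N + 1)) = A / ((A + N) * (A + (N + 1))) := by
    field_simp
    ring
  rw [e1]
  unfold g
  rw [if_neg (Nat.succ_ne_zero N)]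
  push_cast
  have hp : 0 < (A + N) * (A + (N + 1)) := by positivity
  rcases le_total ((N : ℝ) + 1) A with h | h
  · refine (min_le_left _ _).trans ?_
    rw [← mul_div_assoc, div_le_div_iff₀ hA hp]
    have h1 : (A + N) * (A + (N + 1)) ≤ (2 * A) * (2 * A) :=
      mul_le_mul (by linarith) (by linarith) (by positivity) (by positivity)
    linarith
  · refine (min_le_right _ _).trans ?_
    rw [← mul_div_assoc, div_le_div_iff₀ (by positivity) hp]
    have h1 : (A + N) * (A + (N + 1)) ≤ (2 * ((N : ℝ) + 1)) * (2 * ((N : ℝ) + 1)) :=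
      mul_le_mul (by linarith) (by linarith) (by positivity) (by positivity)
    have h2 := mul_le_mul_of_nonneg_left h1 hA.le
    nlinarith

theorem g_sum' {A : ℝ} (hA : 0 < A) (N : ℕ) :
    ∑ n ∈ Finset.range (N + 1), g A n ≤ 4 * (1 - A / (A + N)) := by
  induction N with
  | zero =>
    rw [Finset.sum_range_succ, Finset.sum_range_zero]
    unfold g
    rw [if_pos rfl, Nat.cast_zero, add_zero, add_zero, div_self hA.ne']
    norm_num
  | succ N ih =>
    rw [Finset.sum_range_succ]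
    have h := g_step hA N
    push_cast
    linarith

theorem g_sum {A : ℝ} (hA : 0 < A) (N : ℕ) : ∑ n ∈ Finset.range N, g A n ≤ 4 := by
  rcases Nat.eq_zero_or_pos N with h | h
  · rw [h, Finset.sum_range_zero]
    norm_num
  · obtain ⟨M, rfl⟩ : ∃ M, N = M + 1 := ⟨N - 1, by omega⟩
    refine (g_sum' hA M).trans ?_
    have h1 : 0 ≤ A / (A + M) := by positivity
    linarith

theorem cmp {A K : ℝ} (hA : 0 < A) (hK : 0 ≤ K) (f : ℕ → ℝ) (h0 : ∀ n, 0 ≤ f n)
    (h : ∀ n, f n ≤ K * g A n) : Summable f ∧ ∑' n, f n ≤ 4 * K := by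
  have h1 : ∀ N, ∑ n ∈ Finset.range N, f n ≤ 4 * K := by
    intro N
    refine (Finset.sum_le_sum fun n _ => h n).trans ?_
    rw [← Finset.mul_sum, mul_comm 4 K]
    exact mul_le_mul_of_nonneg_left (g_sum hA N) hK
  exact ⟨summable_of_sum_range_le h0 h1, Real.tsum_le_of_sum_range_le h0 h1⟩

theorem g_exp (v : ℝ) {n : ℕ} (hn : 1 ≤ n) {u k : ℝ} (h1 : u ≤ k - v)
    (h2 : u ≤ k + v - 2 * Real.log n) : Real.exp u ≤ Real.exp k * g (Real.exp v) n := by
  have hn0 : (0 : ℝ) < n := by exact_mod_cast hn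
  unfold g
  rw [if_neg (by omega), mul_min_of_nonneg _ _ (Real.exp_pos k).le, le_min_iff]
  constructor
  · rw [one_div, ← Real.exp_neg, ← Real.exp_add]
    exact Real.exp_le_exp.2 (by linarith)
  · have h3 : (n : ℝ) ^ 2 = Real.exp (2 * Real.log n) := by
      rw [two_mul, Real.exp_add, Real.exp_log hn0, sq]
    rw [h3, ← Real.exp_sub, ← Real.exp_add]
    exact Real.exp_le_exp.2 (by linarith)

theorem cf_zero (κ v : ℝ) : cf κ v 0 = 0 := by
  unfold cf
  simp

theorem cf_le {κ : ℝ} (h1 : 1 ≤ κ) (h2 : κ ≤ 2) (v : ℝ) {n : ℕ} (hn : 1 ≤ n) :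
    |cf κ v n| ≤ Real.exp (-(Real.log n / 2) - (Real.log n - v) ^ 2 / 8) := by
  have hn0 : (0 : ℝ) < n := by exact_mod_cast hn
  obtain ⟨g0, g1⟩ := gg_le h1 h2 (v - Real.log n)
  unfold cf
  have hr : (n : ℝ) ^ (-(1 / 2) : ℝ) = Real.exp (-(Real.log n / 2)) := by
    rw [Real.rpow_def_of_pos hn0]
    congr 1
    ring
  have hμ : |((ArithmeticFunction.moebius n : ℤ) : ℝ)| ≤ 1 := by
    have := ArithmeticFunction.abs_moebius_le_one (n := n)
    exact_mod_cast this
  have hsp : Real.exp (-(Real.log n / 2) - (Real.log n - v) ^ 2 / 8) =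
      Real.exp (-(Real.log n / 2)) * Real.exp (-((Real.log n - v) ^ 2 / 8)) := by
    rw [← Real.exp_add]
    congr 1
  rw [hr, abs_mul, abs_mul, abs_of_nonneg g0, abs_of_pos (Real.exp_pos _), hsp]
  have e1 : (v - Real.log n) ^ 2 / 8 = (Real.log n - v) ^ 2 / 8 := by ring
  rw [e1] at g1
  have h3 : |((ArithmeticFunction.moebius n : ℤ) : ℝ)| * Real.exp (-(Real.log n / 2)) ≤
      1 * Real.exp (-(Real.log n / 2)) := mul_le_mul_of_nonneg_right hμ (Real.exp_pos _).le
  rw [one_mul] at h3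
  exact mul_le_mul h3 g1 g0 (Real.exp_pos _).le

theorem cf_sq_le {κ : ℝ} (h1 : 1 ≤ κ) (h2 : κ ≤ 2) (v : ℝ) {n : ℕ} (hn : 1 ≤ n) :
    cf κ v n ^ 2 ≤ Real.exp (-Real.log n - (Real.log n - v) ^ 2 / 4) := by
  have h3 := cf_le h1 h2 v hn
  rw [← sq_abs]
  refine (pow_le_pow_left₀ (abs_nonneg _) h3 2).trans (le_of_eq ?_)
  rw [← Real.exp_nat_mul]
  congr 1
  push_cast
  ring

/-- JOB DDB -/
theorem ddb : J_DDB := by
  refine ⟨4 * Real.exp 9, by positivity, ?_⟩
  intro κ v h1 h2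
  have hA : 0 < Real.exp v := Real.exp_pos v
  -- first sum
  have a1 := cmp hA (Real.exp_pos (9 + v / 2)).le (fun n => |cf κ v n|) (fun n => abs_nonneg _) (by
    intro n
    rcases Nat.eq_zero_or_pos n with h | h
    · simp only [h, cf_zero, abs_zero]
      unfold g
      rw [if_pos rfl, mul_zero]
    · refine (cf_le h1 h2 v h).trans (g_exp v h ?_ ?_)
      · nlinarith [sq_nonneg (Real.log n - v + 2)]
      · nlinarith [sq_nonneg (Real.log n - v - 6)])
  have a2 := cmp hA (Real.exp_pos (9 + 2 * v)).le (fun n => (n : ℝ) ^ 2 * cf κ v n ^ 2)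
    (fun n => by positivity) (by
    intro n
    rcases Nat.eq_zero_or_pos n with h | h
    · simp only [h, cf_zero]
      unfold g
      rw [if_pos rfl]
      simp
    · have hn0 : (0 : ℝ) < n := by exact_mod_cast h
      have h3 : (n : ℝ) ^ 2 = Real.exp (2 * Real.log n) := by
        rw [two_mul, Real.exp_add, Real.exp_log hn0, sq]
      refine (mul_le_mul_of_nonneg_left (cf_sq_le h1 h2 v h) (sq_nonneg _)).trans ?_
      rw [h3, ← Real.exp_add]
      refine g_exp v h ?_ ?_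
      · nlinarith [sq_nonneg (Real.log n - v - 2)]
      · nlinarith [sq_nonneg (Real.log n - v - 6)])
  have a3 := cmp hA (Real.exp_pos 1).le (fun n => cf κ v n ^ 2) (fun n => sq_nonneg _) (by
    intro n
    rcases Nat.eq_zero_or_pos n with h | h
    · simp only [h, cf_zero]
      unfold g
      rw [if_pos rfl]
      simp
    · refine (cf_sq_le h1 h2 v h).trans (g_exp v h ?_ ?_)
      · nlinarith [sq_nonneg (Real.log n - v + 2)]
      · nlinarith [sq_nonneg (Real.log n - v - 2)])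
  refine ⟨a1.1, a1.2.trans (le_of_eq ?_), a2.1, a2.2.trans (le_of_eq ?_), a3.1, ?_, ?_⟩
  · rw [Real.exp_add]
    ring
  · rw [Real.exp_add]
    ring
  · refine a3.2.trans ?_
    have := Real.exp_le_exp.2 (by norm_num : (1 : ℝ) ≤ 9)
    linarith
  · intro hv
    have a4 := cmp one_pos (Real.exp_pos (4 + 2 * v)).le (fun n => cf κ v n ^ 2)
      (fun n => sq_nonneg _) (by
      intro n
      rcases Nat.eq_zero_or_pos n with h | h
      · simp only [h, cf_zero]
        unfold g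
        rw [if_pos rfl]
        simp
      · have hn1 : (1 : ℝ) ≤ n := by exact_mod_cast h
        have hl : 0 ≤ Real.log n := Real.log_nonneg hn1
        have h3 := g_exp 0 h (u := -Real.log n - (Real.log n - v) ^ 2 / 4) (k := 4 + 2 * v)
          (by nlinarith [sq_nonneg (Real.log n - v - 2), sq_nonneg (Real.log n - v - 4)])
          (by nlinarith [sq_nonneg (Real.log n - v - 4)])
        rw [Real.exp_zero] at h3
        exact (cf_sq_le h1 h2 v h).trans h3)
    refine a4.2.trans ?_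
    rw [Real.exp_add]
    have := Real.exp_le_exp.2 (by norm_num : (4 : ℝ) ≤ 9)
    nlinarith [Real.exp_pos (2 * v)]

/-- JOB LIM -/
theorem lim (h1 : J_CHAIN) (h2 : J_DUAL) (h3 : J_DDB) : J_LIM := by
  intro hRH a hyp
  obtain ⟨C, hC, hch⟩ := h1 hRH a
  obtain ⟨K, hK⟩ : ∃ K : ℝ, K = 2 * Real.pi * Real.exp (2 * a) := ⟨_, rfl⟩
  have hK0 : 0 < K := by rw [hK]; positivity
  obtain ⟨f, hf⟩ : ∃ f : ℝ → ℝ, f = fun v => W0 * AA 2 v := ⟨_, rfl⟩
  obtain ⟨C1, hC1⟩ : ∃ C1 : ℝ, C1 = 2 * C + 1 := ⟨_, rfl⟩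
  have hC10 : 0 < C1 := by rw [hC1]; linarith
  -- the eventual bound
  have ev : ∀ c : ℝ, 0 < c → c ≤ 1 → ∀ᶠ v in (atTop : Filter ℝ),
      |f v - BB (K / c)| ≤ C1 * c ^ 2 := by
    intro c hc0 hc1
    have hc2 : 0 < c ^ 2 := by positivity
    have hc3 : c ^ 2 ≤ 1 := by nlinarith
    have e1 := hch (c ^ 2) hc2 hc3 (hyp _ hc2) c hc0 hc1
    have e2 := h2 (K / c) (by positivity)
    have e3 := (Metric.tendsto_nhds.1 e2) (c ^ 2) hc2
    have e4 : ∀ᶠ X in (atTop : Filter ℝ), |f (Real.log (c * X)) - BB (K / c)| ≤ C1 * c ^ 2 := by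
      filter_upwards [e1, e3] with X x1 x2
      rw [Real.dist_eq] at x2
      rw [hf, hC1]
      simp only
      rw [hK] at x2 ⊢
      have x3 := abs_sub_le (W0 * AA 2 (Real.log (c * X))) (1 / X * ∫ T in X..(2 * X), wt (T / X) *
        ‖DD 2 (Real.log (2 * Real.pi * Real.exp (2 * a) / c) + Real.log (T / X)) T‖ ^ 2)
        (BB (2 * Real.pi * Real.exp (2 * a) / c))
      linarith
    have e5 : Tendsto (fun v : ℝ => Real.exp v / c) atTop atTop :=
      Real.tendsto_exp_atTop.atTop_div_const hc0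
    have e6 := e5.eventually e4
    filter_upwards [e6] with v hv
    have e7 : c * (Real.exp v / c) = Real.exp v := by
      field_simp
    rw [e7, Real.log_exp] at hv
    exact hv
  have cau : ∀ c c' : ℝ, 0 < c → c ≤ 1 → 0 < c' → c' ≤ 1 →
      |BB (K / c) - BB (K / c')| ≤ C1 * c ^ 2 + C1 * c' ^ 2 := by
    intro c c' h4 h5 h6 h7
    obtain ⟨v, hv1, hv2⟩ := ((ev c h4 h5).and (ev c' h6 h7)).exists
    have h8 := abs_sub_le (BB (K / c)) (f v) (BB (K / c'))
    rw [abs_sub_comm (BB (K / c)) (f v)] at h8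
    linarith
  obtain ⟨s, hs⟩ : ∃ s : ℕ → ℝ, s = fun n : ℕ => BB (K / (1 / ((n : ℝ) + 1))) := ⟨_, rfl⟩
  have hpos : ∀ n : ℕ, 0 < 1 / ((n : ℝ) + 1) ∧ 1 / ((n : ℝ) + 1) ≤ 1 := by
    intro n
    have : (0 : ℝ) ≤ n := Nat.cast_nonneg n
    exact ⟨by positivity, by rw [div_le_one (by positivity)]; linarith⟩
  have h0 : Tendsto (fun n : ℕ => 1 / ((n : ℝ) + 1)) atTop (𝓝 0) :=
    tendsto_one_div_add_atTop_nhds_zero_nat
  have h0' : Tendsto (fun n : ℕ => 2 * C1 * (1 / ((n : ℝ) + 1)) ^ 2) atTop (𝓝 0) := by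
    have := (h0.pow 2).const_mul (2 * C1)
    simpa using this
  have hcs : CauchySeq s := by
    refine cauchySeq_of_le_tendsto_0 (fun n : ℕ => 2 * C1 * (1 / ((n : ℝ) + 1)) ^ 2) ?_ h0'
    intro n m N hn hm
    rw [Real.dist_eq, hs]
    have h4 := cau _ _ (hpos n).1 (hpos n).2 (hpos m).1 (hpos m).2
    have mono : ∀ k : ℕ, N ≤ k → (1 / ((k : ℝ) + 1)) ^ 2 ≤ (1 / ((N : ℝ) + 1)) ^ 2 := by
      intro k hk
      have hk' : (N : ℝ) ≤ k := by exact_mod_cast hk
      exact pow_le_pow_left₀ (hpos k).1.le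
        (one_div_le_one_div_of_le (by positivity) (by linarith)) 2
    have h5 := mul_le_mul_of_nonneg_left (mono n hn) hC10.le
    have h6 := mul_le_mul_of_nonneg_left (mono m hm) hC10.le
    refine h4.trans ?_
    linarith
  obtain ⟨S, hS⟩ := cauchySeq_tendsto_of_complete hcs
  refine ⟨S, C1, hC10, ?_⟩
  intro c hc0 hc1
  rw [← hK]
  have t1 : Tendsto (fun n => |s n - BB (K / c)|) atTop (𝓝 |S - BB (K / c)|) :=
    (hS.sub_const _).abs
  have t2 : Tendsto (fun n : ℕ => C1 * (1 / ((n : ℝ) + 1)) ^ 2 + C1 * c ^ 2) atTop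
      (𝓝 (C1 * 0 ^ 2 + C1 * c ^ 2)) := ((h0.pow 2).const_mul C1).add_const _
  have t3 := le_of_tendsto_of_tendsto' t1 t2 fun n => by
    rw [hs]
    exact cau _ _ (hpos n).1 (hpos n).2 hc0 hc1
  refine t3.trans (le_of_eq ?_)
  ring

end Pool.Agent.Q190.AL
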